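import Mathlib
import Pool.Agent.Helper57.Rs.Final

set_option autoImplicit false

/-!
A lower bound for the proper rainbow saturation number of every cycle `C_k`, `k ≥ 4`.
-/

namespace Pool.Agent.Results.MP_2a1abf_co.LowerBound

open Pool.Agent.Helper57.Rs

/-- For every `k ≥ 4`: every finite rainbow `C_k`-saturated graph with `n` vertices and `e` edges
satisfies `2 e ≥ 3 n - 4`; hence `sat*(n, C_k) ≥ 3 n / 2 - 2` for every `n` (the minimum defining
`sat*` is attained). -/
theorem result (k : ℕ) (hk : 4 ≤ k) :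
    (∀ (V : Type) [Fintype V] (G : SimpleGraph V), Saturated k G →
      3 * Fintype.card V ≤ 2 * G.edgeSet.ncard + 4) ∧
    (∀ n : ℕ, (∃ G : SimpleGraph (Fin n), Saturated k G ∧ G.edgeSet.ncard = satStar k n) ∧
      3 * n ≤ 2 * satStar k n + 4) :=
  ⟨fun V _ G h => saturated_bound hk G h, fun n => satStar_bound hk n⟩

end Pool.Agent.Results.MP_2a1abf_co.LowerBound
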