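import Mathlib
import Pool.Agent.RSU.Fin

set_option autoImplicit false

/-!
An upper bound for the proper rainbow saturation number of every cycle `C_k`, `k ≥ 19`.
-/

namespace Pool.Agent.Results.MP_2a1abf_co.UpperBound

open Pool.Agent.Helper57.Rs Pool.Agent.RSU

/-- For every `k ≥ 19` and every `n` there is a rainbow `C_k`-saturated graph on `n` vertices with at
most `7 n / 4 + 25 k ^ 2` edges; hence `sat*(n, C_k) ≤ 7 n / 4 + 25 k ^ 2`. -/
theorem result (k : ℕ) (hk : 19 ≤ k) (n : ℕ) :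
    (∃ G : SimpleGraph (Fin n), Saturated k G ∧ 4 * G.edgeSet.ncard ≤ 7 * n + 100 * k ^ 2) ∧
      4 * satStar k n ≤ 7 * n + 100 * k ^ 2 := by
  obtain ⟨⟨G, hG, hc⟩, -⟩ := satStar_bound (k := k) (by omega) n
  have h := upper hk n
  exact ⟨⟨G, hG, by rw [hc]; exact h⟩, h⟩

end Pool.Agent.Results.MP_2a1abf_co.UpperBound
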