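import Mathlib
import Pool.Agent.RS5.Fin

set_option autoImplicit false

/-!
An upper bound for the proper rainbow saturation number of the cycle `C_5`.
-/

namespace Pool.Agent.Results.MP_2a1abf_co.UpperFive

open Pool.Agent.Helper57.Rs Pool.Agent.RS5

/-- For every `n ≥ 183` there is a rainbow `C_5`-saturated graph on `n` vertices with at most
`2 n - 2` edges; hence `sat*(n, C_5) ≤ 2 n - 2`. -/
theorem result (n : ℕ) (hn : 183 ≤ n) :
    (∃ G : SimpleGraph (Fin n), Saturated 5 G ∧ G.edgeSet.ncard ≤ 2 * n - 2) ∧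
      satStar 5 n ≤ 2 * n - 2 := by
  obtain ⟨⟨G, hG, hc⟩, -⟩ := satStar_bound (k := 5) (by omega) n
  have h := upper5 hn
  exact ⟨⟨G, hG, by rw [hc]; exact h⟩, h⟩

end Pool.Agent.Results.MP_2a1abf_co.UpperFive
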